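import Pool.Agent.H19.SYA.TA
import Pool.Agent.H2.ST.Basic2

/-!
# The algebra `C`
-/

set_option autoImplicit false

namespace Pool.Agent.H61.SYA

open MvPolynomial Pool.Agent.H2.ST Pool.Agent.H15.TG Pool.Agent.H19.SYA

section dep

variable {k A : Type} [Field k] [CharZero k] [CommRing A] [IsDomain A] [Algebra k A]

omit [CharZero k] [IsDomain A] in
theorem der_aeval (D : Derivation k A A) (v : Fin 2 → A) (hD : ∀ i, D (v i) = 0)
    (c : MvPolynomial (Fin 2) k) : D (aeval v c) = 0 := by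
  induction c using MvPolynomial.induction_on with
  | C a => rw [aeval_C]; exact D.map_algebraMap a
  | add p q hp hq => rw [map_add, map_add, hp, hq, add_zero]
  | mul_X p i hp => rw [map_mul, aeval_X, Derivation.leibniz, hp, hD i, smul_zero, smul_zero, add_zero]

theorem der_eval (D : Derivation k A A) (v : Fin 2 → A) (hD : ∀ i, D (v i) = 0) (f : A)
    (Q : Polynomial (MvPolynomial (Fin 2) k)) :
    D (Q.eval₂ (aeval v : MvPolynomial (Fin 2) k →ₐ[k] A).toRingHom f) =
      (Polynomial.derivative Q).eval₂ (aeval v : MvPolynomial (Fin 2) k →ₐ[k] A).toRingHom f *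
        D f := by
  induction Q using Polynomial.induction_on' with
  | add p q hp hq =>
    rw [Polynomial.eval₂_add, map_add, hp, hq, Polynomial.derivative_add, Polynomial.eval₂_add,
      add_mul]
  | monomial n a =>
    rw [Polynomial.eval₂_monomial, Derivation.leibniz, Polynomial.derivative_monomial,
      Polynomial.eval₂_monomial, Derivation.leibniz_pow]
    have h : D ((aeval v : MvPolynomial (Fin 2) k →ₐ[k] A).toRingHom a) = 0 := der_aeval D v hD a
    rw [h, smul_zero, add_zero, smul_eq_mul, smul_eq_mul, nsmul_eq_mul, map_mul, map_natCast]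
    ring

theorem dep_der (D : Derivation k A A) (f : A) (v : Fin 2 → A) (hv : AlgebraicIndependent k v)
    (hD : ∀ i, D (v i) = 0) (hdep : ¬ AlgebraicIndependent k (Fin.cons f v : Fin 3 → A)) :
    D f = 0 := by
  by_contra hne
  apply hdep
  have key : ∀ (n : ℕ) (Q : Polynomial (MvPolynomial (Fin 2) k)), Q.natDegree ≤ n →
      Q.eval₂ (aeval v : MvPolynomial (Fin 2) k →ₐ[k] A).toRingHom f = 0 → Q = 0 := by
    intro n
    induction n with
    | zero =>
      intro Q hQ h0
      rw [Polynomial.eq_C_of_natDegree_le_zero hQ, Polynomial.eval₂_C] at h0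
      rw [Polynomial.eq_C_of_natDegree_le_zero hQ]
      have h1 : Q.coeff 0 = 0 := (injective_iff_map_eq_zero _).1 hv _ h0
      rw [h1, map_zero]
    | succ n ih =>
      intro Q hQ h0
      have h1 := der_eval D v hD f Q
      rw [h0, map_zero] at h1
      have h2 := (mul_eq_zero.1 h1.symm).resolve_right hne
      have h3 : Polynomial.derivative Q = 0 := by
        refine ih _ ?_ h2
        have := Polynomial.natDegree_derivative_le Q
        omega
      have h4 : Q.natDegree = 0 := Polynomial.natDegree_eq_zero_of_derivative_eq_zero h3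
      rw [Polynomial.eq_C_of_natDegree_eq_zero h4, Polynomial.eval₂_C] at h0
      rw [Polynomial.eq_C_of_natDegree_eq_zero h4]
      have h5 : Q.coeff 0 = 0 := (injective_iff_map_eq_zero _).1 hv _ h0
      rw [h5, map_zero]
  refine (injective_iff_map_eq_zero _).2 fun P hP => ?_
  have h6 : (finSuccEquiv k 2 P).eval₂
      (aeval v : MvPolynomial (Fin 2) k →ₐ[k] A).toRingHom f = 0 := by
    rw [← hP]
    have h7 : ∀ R : MvPolynomial (Fin 3) k, (finSuccEquiv k 2 R).eval₂
        (aeval v : MvPolynomial (Fin 2) k →ₐ[k] A).toRingHom f =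
        aeval (Fin.cons f v : Fin 3 → A) R := by
      intro R
      induction R using MvPolynomial.induction_on with
      | C a =>
        rw [finSuccEquiv_apply, eval₂Hom_C, aeval_C]
        simp
      | add p q hp hq => rw [map_add, Polynomial.eval₂_add, hp, hq, map_add]
      | mul_X p i hp =>
        rw [map_mul, Polynomial.eval₂_mul, hp, map_mul, aeval_X]
        congr 1
        refine Fin.cases ?_ (fun j => ?_) i
        · rw [finSuccEquiv_X_zero, Polynomial.eval₂_X]
          rfl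
        · rw [finSuccEquiv_X_succ, Polynomial.eval₂_C]
          simp
    exact h7 P
  have h8 := key _ _ le_rfl h6
  exact (finSuccEquiv k 2).injective (by rw [h8, map_zero])

end dep

section gr

variable {k : Type} [Field k] {m : ℕ} {W : ℤ → Submodule k (Pol k m)}

theorem cmp_ker (hW : PGr W) (h : Gr W) {p f : Pol k m} {α : ℤ} (hp : p ∈ W α)
    (hf : br p f = 0) (n : ℤ) : br p (cmp h f n) = 0 := by
  classical
  let c : ℤ →₀ Pol k m :=
    ((cmp h f).mapRange (fun x => br p x) (br_zero p)).mapDomain (fun a => α + a)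
  have hinj : Function.Injective (fun a : ℤ => α + a) := fun a b hab => add_left_cancel hab
  have hc : ∀ a, c (α + a) = br p (cmp h f a) := by
    intro a
    have h1 := Finsupp.mapDomain_apply hinj
      ((cmp h f).mapRange (fun x => br p x) (br_zero p)) a
    rw [Finsupp.mapRange_apply] at h1
    exact h1
  have h2 : c = 0 := by
    refine h.ind c (fun a => ?_) ?_
    · have h3 := hc (a - α)
      rw [add_sub_cancel] at h3
      rw [h3]
      have h4 := hW.pbr α (a - α) p _ hp (cmp_mem h f (a - α))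
      rwa [add_sub_cancel] at h4
    · simp only [c]
      rw [Finsupp.sum_mapDomain_index (fun _ => rfl) (fun _ _ _ => rfl),
        Finsupp.sum_mapRange_index (fun _ => rfl)]
      have h5 : ((cmp h f).sum fun _ x => br p x) = br p ((cmp h f).sum fun _ x => x) := by
        unfold Finsupp.sum
        rw [br_sum]
      rw [h5, cmp_sum, hf]
  rw [← hc n, h2]
  rfl

end gr

theorem pf_CCX (hTPB : T_TPB) (hSL0 : T_SL0) (hTR2 : T_TR2) (hLFC : T_LFC) (hEXT : T_EXT) :
    T_CCX := by
  intro k _ _ _ W H y w hy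
  obtain ⟨p0, q0, α, β, hC⟩ := hTPB k W H y w hy
  obtain ⟨s, n0, hs⟩ := hSL0 k W H y w p0 q0 α β hy hC
  have tr2 := hTR2 k W H y w p0 q0 s α β n0 hy hC hs
  let K : Subalgebra k (Pol k 2) := Cen {p0, q0}
  have hK : ∀ f, f ∈ K ↔ br f p0 = 0 ∧ br f q0 = 0 := by
    intro f
    constructor
    · intro hf
      exact ⟨hf p0 (by simp), hf q0 (by simp)⟩
    · rintro ⟨h1, h2⟩ g hg
      rcases hg with rfl | hg
      · exact h1
      · rw [Set.mem_singleton_iff.1 hg]
        exact h2
  have anti0 : ∀ f g : Pol k 2, br f g = 0 → br g f = 0 := by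
    intro f g h
    rw [br_anti, h, neg_zero]
  have hp0 : p0 ∈ K := (hK p0).2 ⟨br_self p0, hC.pq⟩
  have hq0 : q0 ∈ K := (hK q0).2 ⟨anti0 _ _ hC.pq, br_self q0⟩
  have dep : ∀ f : Fin 3 → Pol k 2, (∀ i, f i ∈ K) → ¬ AlgebraicIndependent k f := by
    intro f hf
    exact tr2 f fun i => ⟨anti0 _ _ ((hK _).1 (hf i)).1, anti0 _ _ ((hK _).1 (hf i)).2⟩
  have hmain : ∀ (p q f x : Pol k 2), p ∈ K → q ∈ K → f ∈ K → AlgebraicIndependent k ![p, q] →
      br x p = 0 → br x q = 0 → br x f = 0 := by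
    intro p q f x hp hq hf hai h1 h2
    rw [← ad_apply]
    refine dep_der (ad x) f ![p, q] hai ?_ (dep _ ?_)
    · intro i
      rw [ad_apply]
      fin_cases i
      · exact h1
      · exact h2
    · intro i
      fin_cases i
      · exact hf
      · exact hp
      · exact hq
  have cm : ∀ f ∈ K, ∀ g ∈ K, br f g = 0 := by
    intro f hf g hg
    exact hmain p0 q0 g f hp0 hq0 hg hC.ai ((hK f).1 hf).1 ((hK f).1 hf).2
  have hlnd : ∀ p : Pol k 2, LN p → LND (br p) := fun p hp =>
    ⟨br_add p, fun a b => br_mul p a b, hp⟩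
  have ln : ∀ f ∈ K, LN f := by
    intro g hg
    have hgp := anti0 _ _ ((hK g).1 hg).1
    have hgq := anti0 _ _ ((hK g).1 hg).2
    have step : ∀ (p x : Pol k 2), br p0 p = 0 → br p0 x = 0 → br p0 (br p x) = 0 := by
      intro p x h1 h2
      rw [jac, h1, h2, zero_br, br_zero, add_zero]
    have h1 : ∀ x ∈ Cf (⊤ : Subalgebra k (Pol k 2)) p0, ∃ n : ℕ, (br g)^[n] x = 0 := by
      refine hEXT k 2 (Cf (⊤ : Subalgebra k (Pol k 2)) p0) q0 g ?_ ?_ hgq ?_ ?_
      · intro x hx
        rw [mem_Cf] at hx ⊢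
        exact ⟨Algebra.mem_top, step q0 x hC.pq hx.2⟩
      · intro x hx
        rw [mem_Cf] at hx ⊢
        exact ⟨Algebra.mem_top, step g x hgp hx.2⟩
      · intro x _
        exact hC.lq x
      · intro x hx
        rw [mem_Cf, mem_Cf] at hx
        refine ⟨1, ?_⟩
        rw [Function.iterate_one]
        exact cm g hg x ((hK x).2 ⟨anti0 _ _ hx.1.2, anti0 _ _ hx.2⟩)
    have h2 := hEXT k 2 (⊤ : Subalgebra k (Pol k 2)) p0 g (fun _ _ => Algebra.mem_top)
      (fun _ _ => Algebra.mem_top) hgp (fun x _ => hC.lp x) h1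
    intro x
    exact h2 x Algebra.mem_top
  have hNC : NC p0 := by
    rintro ⟨c, hc⟩
    have hc0 : c ≠ 0 := by
      rintro rfl
      have h1 := hC.ai.ne_zero 0
      apply h1
      show p0 = 0
      rw [hc, map_zero]
    have h2 : p0 ∈ W 0 := by
      rw [hc]
      exact algebraMap_mem_gr hy.toGr c
    have h3 : p0 ≠ 0 := by
      rw [hc]
      exact C_ne_zero.2 hc0
    have h4 := wt_uniq hy.toGr hC.hp h2 h3
    have := hC.pa
    omega
  refine ⟨K, ?_, ?_, cm, ln, ?_, ?_, ⟨p0, q0, α, β, hp0, hq0, hC⟩, dep⟩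
  · intro h f hf n
    rw [hK] at hf ⊢
    exact ⟨anti0 _ _ (cmp_ker hy.toPGr h hC.hp (anti0 _ _ hf.1) n),
      anti0 _ _ (cmp_ker hy.toPGr h hC.hq (anti0 _ _ hf.2) n)⟩
  · intro a b hab hmem
    rw [hK] at hmem
    obtain ⟨a1, b1⟩ := hLFC (Pol k 2) (br p0) (hlnd p0 hC.lp) a b hab (anti0 _ _ hmem.1)
    obtain ⟨a2, b2⟩ := hLFC (Pol k 2) (br q0) (hlnd q0 hC.lq) a b hab (anti0 _ _ hmem.2)
    exact ⟨(hK a).2 ⟨anti0 _ _ a1, anti0 _ _ a2⟩, (hK b).2 ⟨anti0 _ _ b1, anti0 _ _ b2⟩⟩
  · intro n f hf hfn hnc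
    have h1 := hy.bad n α f p0 hfn hC.hp hnc hNC (ln f hf) hC.lp ((hK f).1 hf).1
    have h2 := hC.pa
    nlinarith
  · intro p q a b hp hq hpq x hx1 hx2
    rw [hK]
    exact ⟨hmain p q p0 x hp hq hp0 hpq.ai (anti0 _ _ hx1) (anti0 _ _ hx2),
      hmain p q q0 x hp hq hq0 hpq.ai (anti0 _ _ hx1) (anti0 _ _ hx2)⟩

end Pool.Agent.H61.SYA
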